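import Mathlib

/-!
# A counterexample to the stability question for `W (I - t B)` and its resolvent companion

We exhibit `3 × 3` matrices `W` (primitive, row stochastic) and `B` (positive semidefinite,
doubly stochastic, in particular entrywise nonnegative with `B e = ρ(B) e`) such that at `t = 1`,
which is half of the right end point `2 / ρ(B) = 2`, both matrices `P(t) = W (I - t B)` and
`R(t) = I - W + (I + t B)⁻¹ (2 W - I)` have spectral radius larger than `1`.
-/

namespace Pool.Agent.Results.MP_d721eb_al.Counterexample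

open Matrix

/-- The spectral radius of a real square matrix: the largest modulus of a complex eigenvalue
(Mathlib's `spectralRadius` over `ℂ` of the complexified matrix, as a real number). -/
noncomputable def rho {n : ℕ} (M : Matrix (Fin n) (Fin n) ℝ) : ℝ :=
  (spectralRadius ℂ (M.map (algebraMap ℝ ℂ))).toReal

/-- `P(t) = W (I - t B)`. -/
noncomputable def P {n : ℕ} (W B : Matrix (Fin n) (Fin n) ℝ) (t : ℝ) : Matrix (Fin n) (Fin n) ℝ :=
  W * (1 - t • B)

/-- `R(t) = I - W + (I + t B)⁻¹ (2 W - I)`. -/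
noncomputable def R {n : ℕ} (W B : Matrix (Fin n) (Fin n) ℝ) (t : ℝ) : Matrix (Fin n) (Fin n) ℝ :=
  1 - W + (1 + t • B)⁻¹ * ((2 : ℝ) • W - 1)

/-! ### Auxiliary facts on the spectral radius -/

lemma mem_spec_iff {n : ℕ} (M : Matrix (Fin n) (Fin n) ℝ) (z : ℂ) :
    z ∈ spectrum ℂ (M.map (algebraMap ℝ ℂ)) ↔
      Polynomial.eval₂ (algebraMap ℝ ℂ) z M.charpoly = 0 := by
  rw [Matrix.mem_spectrum_iff_isRoot_charpoly, Polynomial.IsRoot.def,
    Matrix.charpoly_map, Polynomial.eval_map]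

lemma spectralRadius_ne_top {n : ℕ} (M : Matrix (Fin n) (Fin n) ℂ) :
    spectralRadius ℂ M ≠ ⊤ := by
  have hfin : (spectrum ℂ M).Finite := Matrix.finite_spectrum M
  obtain ⟨C, hC⟩ := hfin.isBounded.exists_norm_le
  have h0 : spectralRadius ℂ M ≤ (Real.toNNReal C : NNReal) := by
    unfold spectralRadius
    refine iSup₂_le fun k hk => ?_
    have := hC k hk
    rw [ENNReal.coe_le_coe]
    exact NNReal.coe_le_coe.mp (by
      rw [coe_nnnorm]
      exact this.trans (Real.le_coe_toNNReal C))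
  exact ne_top_of_le_ne_top ENNReal.coe_ne_top h0

lemma norm_le_rho {n : ℕ} (M : Matrix (Fin n) (Fin n) ℝ) {z : ℂ}
    (hz : z ∈ spectrum ℂ (M.map (algebraMap ℝ ℂ))) : ‖z‖ ≤ rho M := by
  unfold rho
  have h1 : ((‖z‖₊ : NNReal) : ENNReal) ≤ spectralRadius ℂ (M.map (algebraMap ℝ ℂ)) := by
    unfold spectralRadius
    exact le_iSup₂_of_le z hz le_rfl
  have h2 := ENNReal.toReal_mono (spectralRadius_ne_top _) h1
  simpa using h2

lemma rho_le {n : ℕ} (M : Matrix (Fin n) (Fin n) ℝ) {c : ℝ} (hc : 0 ≤ c)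
    (h : ∀ z ∈ spectrum ℂ (M.map (algebraMap ℝ ℂ)), ‖z‖ ≤ c) : rho M ≤ c := by
  unfold rho
  refine ENNReal.toReal_le_of_le_ofReal hc ?_
  unfold spectralRadius
  refine iSup₂_le fun z hz => ?_
  have := h z hz
  rw [ENNReal.ofReal, ENNReal.coe_le_coe]
  exact NNReal.coe_le_coe.mp (by
    rw [coe_nnnorm, Real.coe_toNNReal c hc]
    exact this)

/-- If the characteristic polynomial of a real `3 × 3` matrix is positive at `-1`, then the
matrix has a real eigenvalue smaller than `-1`, hence spectral radius larger than `1`. -/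
lemma one_lt_rho_of_charpoly (M : Matrix (Fin 3) (Fin 3) ℝ)
    (a b : ℝ) (hb : b < -1) (ha : 0 < M.charpoly.eval (-1)) (hb' : M.charpoly.eval b ≤ a)
    (ha0 : a ≤ 0) : 1 < rho M := by
  have hcont : ContinuousOn (fun x : ℝ => M.charpoly.eval x) (Set.Icc b (-1)) :=
    M.charpoly.continuous.continuousOn
  have hivt := intermediate_value_Icc (le_of_lt hb) hcont
  have hmem : (0 : ℝ) ∈ Set.Icc (M.charpoly.eval b) (M.charpoly.eval (-1)) :=
    ⟨hb'.trans ha0, ha.le⟩
  obtain ⟨x, hx, hx0⟩ := hivt hmem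
  have hx1 : x ≠ -1 := by
    rintro rfl
    simp only at hx0
    linarith
  have hxlt : x < -1 := lt_of_le_of_ne hx.2 hx1
  have hz : (x : ℂ) ∈ spectrum ℂ (M.map (algebraMap ℝ ℂ)) := by
    rw [mem_spec_iff]
    have : Polynomial.eval₂ (algebraMap ℝ ℂ) ((algebraMap ℝ ℂ) x) M.charpoly
        = (algebraMap ℝ ℂ) (M.charpoly.eval x) := by
      rw [Polynomial.eval₂_at_apply]
    simp only at hx0
    rw [hx0, map_zero] at this
    exact this
  have h1 := norm_le_rho M hz
  rw [Complex.norm_real, Real.norm_eq_abs, abs_of_neg (by linarith)] at h1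
  linarith

/-! ### The example -/

/-- The primitive stochastic matrix of the example. -/
noncomputable def W₀ : Matrix (Fin 3) (Fin 3) ℝ :=
  !![1/50, 1/50, 24/25; 1, 0, 0; 1, 0, 0]

/-- The positive semidefinite doubly stochastic matrix of the example. -/
noncomputable def B₀ : Matrix (Fin 3) (Fin 3) ℝ :=
  !![9/25, 6/25, 10/25; 6/25, 17/25, 2/25; 10/25, 2/25, 13/25]

/-- The left Perron eigenvector of `W₀`. -/
noncomputable def π₀ : Fin 3 → ℝ := ![50/99, 1/99, 48/99]

lemma charpoly_eval (M : Matrix (Fin 3) (Fin 3) ℝ) (x : ℝ) :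
    M.charpoly.eval x =
      (x - M 0 0) * (x - M 1 1) * (x - M 2 2) - (x - M 0 0) * (M 1 2 * M 2 1)
        - M 0 1 * M 1 0 * (x - M 2 2) - M 0 1 * M 1 2 * M 2 0
        - M 0 2 * M 1 0 * M 2 1 - M 0 2 * (x - M 1 1) * M 2 0 := by
  rw [Matrix.charpoly, ← Polynomial.coe_evalRingHom, RingHom.map_det]
  simp only [RingHom.mapMatrix_apply]
  rw [Matrix.det_fin_three]
  simp
  ring

lemma W₀_primitive : W₀.IsPrimitive := by
  constructor
  · intro i j
    fin_cases i <;> fin_cases j <;> simp [W₀]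
    norm_num
  · refine ⟨2, by norm_num, ?_⟩
    intro i j
    rw [pow_two, Matrix.mul_apply, Fin.sum_univ_three]
    fin_cases i <;> fin_cases j <;> simp [W₀] <;> norm_num

lemma W₀_stoch : W₀ ∈ rowStochastic ℝ (Fin 3) := by
  rw [mem_rowStochastic_iff_sum]
  refine ⟨W₀_primitive.nonneg, ?_⟩
  intro i
  rw [Fin.sum_univ_three]
  fin_cases i <;> simp [W₀]
  norm_num

lemma B₀_psd : B₀.PosSemidef := by
  rw [Matrix.posSemidef_iff_dotProduct_mulVec]
  constructor
  · ext i j
    fin_cases i <;> fin_cases j <;> simp [B₀, Matrix.conjTranspose_apply]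
  · intro x
    simp only [B₀, dotProduct, Matrix.mulVec, Fin.sum_univ_three]
    simp
    nlinarith [sq_nonneg (9 * x 0 + 6 * x 1 + 10 * x 2), sq_nonneg (117 * x 1 - 42 * x 2),
      sq_nonneg (x 2)]

lemma B₀_doubly : B₀ ∈ doublyStochastic ℝ (Fin 3) := by
  rw [mem_doublyStochastic_iff_sum]
  refine ⟨?_, ?_, ?_⟩
  · intro i j
    fin_cases i <;> fin_cases j <;> simp [B₀] <;> norm_num
  · intro i
    rw [Fin.sum_univ_three]
    fin_cases i <;> simp [B₀] <;> norm_num
  · intro i
    rw [Fin.sum_univ_three]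
    fin_cases i <;> simp [B₀] <;> norm_num

lemma rho_B₀ : rho B₀ = 1 := by
  apply le_antisymm
  · apply rho_le _ zero_le_one
    intro z hz
    rw [mem_spec_iff] at hz
    have hch : B₀.charpoly = Polynomial.X ^ 3 - Polynomial.C (39/25) * Polynomial.X ^ 2
        + Polynomial.C (351/625) * Polynomial.X - Polynomial.C (1/625) := by
      apply Polynomial.funext
      intro x
      rw [charpoly_eval]
      simp [B₀]
      ring
    rw [hch] at hz
    simp only [Polynomial.eval₂_sub, Polynomial.eval₂_add, Polynomial.eval₂_mul,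
      Polynomial.eval₂_pow, Polynomial.eval₂_X, Polynomial.eval₂_C] at hz
    have hz' : (z - 1) * (z ^ 2 - (14/25) * z + 1/625) = 0 := by
      have : (algebraMap ℝ ℂ) (39/25) = 39/25 := by simp
      have h2 : (algebraMap ℝ ℂ) (351/625) = 351/625 := by simp
      have h3 : (algebraMap ℝ ℂ) (1/625) = 1/625 := by simp
      rw [this, h2, h3] at hz
      linear_combination hz
    rcases mul_eq_zero.mp hz' with h | h
    · have : z = 1 := by linear_combination h
      simp [this]
    · have h2 : z ^ 2 = (14/25) * z - 1/625 := by linear_combination h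
      have h3 : ‖z‖ ^ 2 ≤ (14/25) * ‖z‖ + 1/625 := by
        calc ‖z‖ ^ 2 = ‖z ^ 2‖ := (norm_pow z 2).symm
          _ = ‖(14/25) * z - 1/625‖ := by rw [h2]
          _ ≤ ‖(14/25 : ℂ) * z‖ + ‖(1/625 : ℂ)‖ := norm_sub_le _ _
          _ = (14/25) * ‖z‖ + 1/625 := by
            rw [norm_mul]
            norm_num
      nlinarith [norm_nonneg z]
  · have h1 : (1 : ℂ) ∈ spectrum ℂ (B₀.map (algebraMap ℝ ℂ)) := by
      rw [mem_spec_iff]
      have : Polynomial.eval₂ (algebraMap ℝ ℂ) ((algebraMap ℝ ℂ) 1) B₀.charpoly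
          = (algebraMap ℝ ℂ) (B₀.charpoly.eval 1) := by
        rw [Polynomial.eval₂_at_apply]
      rw [map_one] at this
      rw [this, charpoly_eval]
      simp [B₀]
      norm_num
    simpa using norm_le_rho B₀ h1

lemma P_eq : P W₀ B₀ 1 = !![-47/125, -47/625, 282/625; 16/25, -6/25, -2/5; 16/25, -6/25, -2/5] := by
  unfold P
  ext i j
  rw [Matrix.mul_apply, Fin.sum_univ_three]
  fin_cases i <;> fin_cases j <;> simp [W₀, B₀] <;> norm_num

lemma inv_eq : (1 + (1 : ℝ) • B₀)⁻¹ =
    !![199/244, -13/122, -51/244; -13/122, 149/244, -1/244; -51/244, -1/244, 87/122] := by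
  apply Matrix.inv_eq_right_inv
  ext i j
  rw [Matrix.mul_apply, Fin.sum_univ_three]
  fin_cases i <;> fin_cases j <;> simp [B₀] <;> norm_num

lemma R_eq : R W₀ B₀ 1 = !![-662/1525, 727/6100, 4971/6100; 481/1525, 2349/6100, -1223/6100;
    1887/3050, -13/3050, -349/3050] := by
  unfold R
  rw [inv_eq]
  ext i j
  rw [Matrix.add_apply, Matrix.mul_apply, Fin.sum_univ_three]
  fin_cases i <;> fin_cases j <;> simp [W₀] <;> norm_num

/-- **Counterexample to Q1** (in a strong form).  There are a primitive stochastic `3 × 3` matrix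
`W` with left Perron eigenvector `π`, and a positive semidefinite matrix `B`, which is even doubly
stochastic (so entrywise nonnegative) with `ρ(B) = 1` and `B e = ρ(B) e`, and `π ⬝ B e > 0`, such
that for the value `t = 1 ∈ (0, 2 / ρ(B))` both `ρ(P(t)) > 1` and `ρ(R(t)) > 1`. -/
theorem result : ∃ (W B : Matrix (Fin 3) (Fin 3) ℝ) (π : Fin 3 → ℝ) (t : ℝ),
    W.IsPrimitive ∧ W ∈ rowStochastic ℝ (Fin 3) ∧
    (∀ i, 0 < π i) ∧ π ᵥ* W = π ∧ π ⬝ᵥ 1 = 1 ∧
    B.PosSemidef ∧ B ∈ doublyStochastic ℝ (Fin 3) ∧ rho B = 1 ∧ B *ᵥ 1 = rho B • 1 ∧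
    0 < π ⬝ᵥ (B *ᵥ 1) ∧
    0 < t ∧ t < 2 / rho B ∧ 1 < rho (P W B t) ∧ 1 < rho (R W B t) := by
  refine ⟨W₀, B₀, π₀, 1, W₀_primitive, W₀_stoch, ?_, ?_, ?_, B₀_psd, B₀_doubly, rho_B₀, ?_, ?_,
    one_pos, ?_, ?_, ?_⟩
  · intro i
    fin_cases i <;> simp [π₀]
  · ext j
    simp only [Matrix.vecMul, dotProduct, Fin.sum_univ_three]
    fin_cases j <;> simp [π₀, W₀] <;> norm_num
  · simp only [dotProduct, Fin.sum_univ_three]
    simp [π₀]
    norm_num
  · rw [rho_B₀]
    ext j
    simp only [Matrix.mulVec, dotProduct, Fin.sum_univ_three]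
    fin_cases j <;> simp [B₀] <;> norm_num
  · simp only [Matrix.mulVec, dotProduct, Fin.sum_univ_three]
    simp [π₀, B₀]
    norm_num
  · rw [rho_B₀]
    norm_num
  · apply one_lt_rho_of_charpoly _ (-1/100) (-2) (by norm_num) _ _ (by norm_num)
    · rw [charpoly_eval, P_eq]
      simp
      norm_num
    · rw [charpoly_eval, P_eq]
      simp
      norm_num
  · apply one_lt_rho_of_charpoly _ (-1/100) (-2) (by norm_num) _ _ (by norm_num)
    · rw [charpoly_eval, R_eq]
      simp
      norm_num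
    · rw [charpoly_eval, R_eq]
      simp
      norm_num

end Pool.Agent.Results.MP_d721eb_al.Counterexample
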